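import Pool.Agent.H24.Wlp5

set_option autoImplicit false

open Set MeasureTheory

namespace Pool.Agent.Results.MP_abad15_an.Cardinals

open Pool.Agent.H24.Wlp

/-- the least cardinality of a set of reals that does not have strong measure zero -/
noncomputable def nonSN : Cardinal.{0} := sInf {κ | ∃ A : Set ℝ, ¬ SMZ A ∧ Cardinal.mk A = κ}

theorem real_not_smz : ¬ SMZ (univ : Set ℝ) := by
  intro h
  obtain ⟨c, hc⟩ := h (fun n => (1 / 2) ^ n) (fun n => by positivity)
  have h1 : volume (Icc (0 : ℝ) 3) ≤ ∑' n, volume (Icc (c n) (c n + (1 / 2) ^ n)) := by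
    calc volume (Icc (0 : ℝ) 3) ≤ volume (⋃ n, Icc (c n) (c n + (1 / 2) ^ n)) :=
          measure_mono ((subset_univ _).trans hc)
      _ ≤ _ := measure_iUnion_le _
  have h2 : (∑' n, volume (Icc (c n) (c n + (1 / 2) ^ n))) = ENNReal.ofReal 2 := by
    have h3 : ∀ n, volume (Icc (c n) (c n + (1 / 2) ^ n)) = ENNReal.ofReal ((1 / 2) ^ n) := by
      intro n
      rw [Real.volume_Icc]
      congr 1
      ring
    rw [tsum_congr h3, ← ENNReal.ofReal_tsum_of_nonneg (fun n => by positivity)
      summable_geometric_two, tsum_geometric_two]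
  rw [h2, Real.volume_Icc] at h1
  have h4 := (ENNReal.ofReal_le_ofReal_iff (by norm_num : (0 : ℝ) ≤ 2)).1 h1
  norm_num at h4

/-- `ℓ²(Γ)` has the weak Lebesgue property if and only if the cardinality of `Γ` is smaller than the
least cardinality of a set of reals which is not of strong measure zero. -/
theorem result (Γ : Type) :
    WLP (lp (fun _ : Γ => ℝ) 2) ↔ Cardinal.mk Γ < nonSN := by
  constructor
  · intro hW
    by_contra hcon
    rw [not_lt] at hcon
    have hne : {κ : Cardinal.{0} | ∃ A : Set ℝ, ¬ SMZ A ∧ Cardinal.mk A = κ}.Nonempty :=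
      ⟨_, univ, real_not_smz, rfl⟩
    obtain ⟨A, hA, hκ⟩ := csInf_mem hne
    exact not_wlp hA (hκ.le.trans hcon) hW
  · intro h
    apply wlp_of_smz
    intro A hA
    by_contra hn
    have : nonSN ≤ Cardinal.mk A := csInf_le' ⟨A, hn, rfl⟩
    exact absurd (this.trans hA) (not_le.2 h)

end Pool.Agent.Results.MP_abad15_an.Cardinals
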